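import Pool.Agent.H60.CM.Basic

/-!
# Stable surfaces of constant mean curvature spanning a circle: the normal on the boundary
-/

set_option autoImplicit false

open Set Function MeasureTheory Filter Topology
open scoped Manifold ContDiff Matrix
open Pool.Agent.H60.CM

namespace Pool.Agent.H91.CM

/-- (BNZ) -/
theorem pf_BNZ (h1 : T_BCV) : T_BNZ := by
  intro D p hp
  obtain ⟨γ, h0, hev, hd⟩ := h1 D p hp
  have hr := D.cmc.r_pos
  have hcirc : ∀ᶠ t in 𝓝 (0 : ℝ), D.x (γ t) ∈ circ D.r :=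
    hev.mono fun t ht => D.cmc.circle.mapsTo ht
  obtain ⟨hc2, hcc⟩ : D.x p ∈ circ D.r := D.cmc.circle.mapsTo hp
  have hmx := Dat.Sm.md D D.smx p
  have hX2 : dd D.x p 1 2 = 0 := by
    have e1 := hd ℝ (fun q => D.x q 2) (Dat.Sm.coord D D.smx 2)
    rw [dd_coord hmx] at e1
    have e2 : (fun t => D.x (γ t) 2) =ᶠ[𝓝 0] fun _ => (0 : ℝ) := hcirc.mono fun t ht => ht.1
    exact e1.unique ((hasDerivAt_const (0 : ℝ) (0 : ℝ)).congr_of_eventuallyEq e2)
  have hX : D.x p 0 * dd D.x p 1 0 + D.x p 1 * dd D.x p 1 1 = 0 := by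
    have e1 := hd ℝ (fun q => D.x q 0 * D.x q 0 + D.x q 1 * D.x q 1)
      (Dat.Sm.add D (Dat.Sm.mul D (Dat.Sm.coord D D.smx 0) (Dat.Sm.coord D D.smx 0))
        (Dat.Sm.mul D (Dat.Sm.coord D D.smx 1) (Dat.Sm.coord D D.smx 1)))
    rw [dd_add ((hmx.coord 0).mul (hmx.coord 0)) ((hmx.coord 1).mul (hmx.coord 1)),
      dd_mul (hmx.coord 0) (hmx.coord 0), dd_mul (hmx.coord 1) (hmx.coord 1),
      dd_coord hmx, dd_coord hmx] at e1
    have e2 : (fun t => D.x (γ t) 0 * D.x (γ t) 0 + D.x (γ t) 1 * D.x (γ t) 1)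
        =ᶠ[𝓝 0] fun _ => D.r ^ 2 := by
      refine hcirc.mono fun t ht => ?_
      have h3 := ht.2
      have h4 := ht.1
      rw [Matrix.vec3_dotProduct, h4] at h3
      simp only
      linarith
    have e3 := e1.unique ((hasDerivAt_const (0 : ℝ) (D.r ^ 2)).congr_of_eventuallyEq e2)
    linarith
  have hne : dd D.x p 1 0 ≠ 0 ∨ dd D.x p 1 1 ≠ 0 := by
    by_contra hcon
    push Not at hcon
    apply D.cmc.imm p
    have hz : dd D.x p 1 = 0 := by
      funext k
      fin_cases k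
      · exact hcon.1
      · exact hcon.2
      · exact hX2
    rw [hz, map_zero]
  have hN1 : D.N p 0 * dd D.x p 1 0 + D.N p 1 * dd D.x p 1 1 = 0 := by
    have h := D.cmc.normal p 1
    rw [Matrix.vec3_dotProduct, hX2] at h
    linarith
  have hkey : D.x p 0 * D.N p 1 - D.x p 1 * D.N p 0 = 0 := by
    rcases hne with h | h
    · have : dd D.x p 1 0 * (D.x p 0 * D.N p 1 - D.x p 1 * D.N p 0) = 0 := by
        linear_combination D.N p 1 * hX - D.x p 1 * hN1
      exact (mul_eq_zero.1 this).resolve_left h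
    · have : dd D.x p 1 1 * (D.x p 0 * D.N p 1 - D.x p 1 * D.N p 0) = 0 := by
        linear_combination D.x p 0 * hN1 - D.N p 0 * hX
      exact (mul_eq_zero.1 this).resolve_left h
  have hrr : D.x p 0 * D.x p 0 + D.x p 1 * D.x p 1 = D.r ^ 2 := by
    rw [Matrix.vec3_dotProduct, hc2] at hcc
    linarith
  have hdot : D.N p ⬝ᵥ D.x p = D.N p 0 * D.x p 0 + D.N p 1 * D.x p 1 := by
    rw [Matrix.vec3_dotProduct, hc2]
    ring
  have hunit : D.N p 0 * D.N p 0 + D.N p 1 * D.N p 1 + D.N p 2 * D.N p 2 = 1 := by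
    have h := D.cmc.unit p
    rw [Matrix.vec3_dotProduct] at h
    exact h
  refine ⟨?_, ?_, ?_, ?_⟩
  · have hu : D.u p = D.x p 0 * D.N p 1 - D.x p 1 * D.N p 0 := by
      simp only [Dat.u, kf, e3, Matrix.vec3_dotProduct, cross_apply, Pi.add_apply,
        Matrix.cons_val_zero, Matrix.cons_val_one, Matrix.cons_val, Pi.zero_apply]
      ring
    rw [hu, hkey]
  · rw [hdot, ← hrr]
    linear_combination (-D.x p 1) * hkey
  · rw [hdot, ← hrr]
    linear_combination D.x p 0 * hkey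
  · have hr2 : D.r ^ 2 ≠ 0 := by positivity
    rw [hdot]
    have : (D.N p 0 * D.x p 0 + D.N p 1 * D.x p 1) ^ 2 =
        (D.N p 0 * D.N p 0 + D.N p 1 * D.N p 1) * D.r ^ 2 := by
      rw [← hrr]
      linear_combination (-(D.x p 0 * D.N p 1 - D.x p 1 * D.N p 0)) * hkey
    rw [this, mul_div_assoc, div_self hr2]
    linarith

end Pool.Agent.H91.CM
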