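import Pool.Agent.H60.CM.Basic

/-!
# Stable surfaces of constant mean curvature spanning a circle: integrals in a parametrization
-/

set_option autoImplicit false

open Set Function MeasureTheory Filter Topology
open scoped Manifold ContDiff Matrix
open Pool.Agent.H60.CM

namespace Pool.Agent.H91.CM

theorem cont_cross : Continuous fun q : V3 × V3 => (q.1 ⨯₃ q.2) ⬝ᵥ (q.1 ⨯₃ q.2) := by
  have h : (fun q : V3 × V3 => (q.1 ⨯₃ q.2) ⬝ᵥ (q.1 ⨯₃ q.2)) = fun q =>
      (q.1 1 * q.2 2 - q.1 2 * q.2 1) * (q.1 1 * q.2 2 - q.1 2 * q.2 1) +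
      (q.1 2 * q.2 0 - q.1 0 * q.2 2) * (q.1 2 * q.2 0 - q.1 0 * q.2 2) +
      (q.1 0 * q.2 1 - q.1 1 * q.2 0) * (q.1 0 * q.2 1 - q.1 1 * q.2 0) := by
    funext q
    simp only [Matrix.vec3_dotProduct, cross_apply, Matrix.cons_val_zero,
      Matrix.cons_val_one, Matrix.cons_val]
  rw [h]
  fun_prop

theorem aw_cont0 {X : E2 → V3} {O : Set E2} (hO : IsOpen O) (hs : ContDiffOn ℝ ∞ X O) :
    ContinuousOn (aw X) O := by
  have hf : ContinuousOn (fderiv ℝ X) O := hs.continuousOn_fderiv_of_isOpen hO (by simp)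
  have hp : ∀ i : Fin 2, ContinuousOn (fun y => pd X y i) O := fun i =>
    hf.clm_apply continuousOn_const
  have h2 : ContinuousOn (fun y => (pd X y 0, pd X y 1)) O := (hp 0).prodMk (hp 1)
  have h3 : aw X = (fun q : V3 × V3 => Real.sqrt ((q.1 ⨯₃ q.2) ⬝ᵥ (q.1 ⨯₃ q.2))) ∘
      fun y => (pd X y 0, pd X y 1) := rfl
  rw [h3]
  exact (cont_cross.sqrt).comp_continuousOn h2

theorem aw_cont {D : Dat} {O : Set E2} {ψ : E2 → D.S} (hP : D.Pch O ψ) :
    ContinuousOn (aw (D.x ∘ ψ)) O := by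
  have hs : ContMDiffOn 𝓘(ℝ, E2) 𝓘(ℝ, V3) ∞ (D.x ∘ ψ) O :=
    ContMDiff.comp_contMDiffOn D.smx hP.smooth
  exact aw_cont0 hP.isOpen hs.contDiffOn

theorem pre_meas {D : Dat} {O : Set E2} {ψ : E2 → D.S} (hP : D.Pch O ψ) {E : Set D.S}
    (hE : MeasurableSet E) : MeasurableSet (ψ ⁻¹' E ∩ O) := by
  have hψc : ContinuousOn ψ O := hP.smooth.continuousOn
  have h1 : MeasurableSet (O.domRestrict ψ ⁻¹' E) :=
    (continuousOn_iff_continuous_domRestrict.1 hψc).measurable hE
  have h2 := hP.isOpen.measurableSet.subtype_image h1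
  have h3 : (Subtype.val '' (O.domRestrict ψ ⁻¹' E) : Set E2) = ψ ⁻¹' E ∩ O := by
    ext y
    constructor
    · rintro ⟨z, hz, rfl⟩
      exact ⟨hz, z.2⟩
    · rintro ⟨hy, hO⟩
      exact ⟨⟨y, hO⟩, hy, rfl⟩
  rwa [h3] at h2

/-- (ARE) -/
theorem pf_ARE : T_ARE := by
  intro D O ψ hP F hF
  have hOm : MeasurableSet O := hP.isOpen.measurableSet
  have hψc : ContinuousOn ψ O := hP.smooth.continuousOn
  have harea := D.cmc.area O ψ hP.isOpen hP.smooth hP.inj hP.imm
  have hwm : AEMeasurable (fun y => ENNReal.ofReal (aw (D.x ∘ ψ) y)) (volume.restrict O) :=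
    ((aw_cont hP).aemeasurable hOm).ennreal_ofReal
  have hae : AEMeasurable ψ (volume.restrict O) := hψc.aemeasurable hOm
  have hae2 : AEMeasurable ψ ((volume.restrict O).withDensity
      fun y => ENNReal.ofReal (aw (D.x ∘ ψ) y)) :=
    hae.mono_ac (withDensity_absolutelyContinuous _ _)
  have hmap : D.μ.restrict (ψ '' O) = Measure.map ψ ((volume.restrict O).withDensity
      fun y => ENNReal.ofReal (aw (D.x ∘ ψ) y)) := by
    refine Measure.ext fun E hE => ?_
    rw [Measure.restrict_apply hE, Measure.map_apply_of_aemeasurable hae2 hE, withDensity_apply',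
      Measure.restrict_restrict' hOm]
    have h1 : E ∩ ψ '' O = ψ '' (ψ ⁻¹' E ∩ O) := by
      rw [inter_comm (ψ ⁻¹' E) O, image_inter_preimage, inter_comm]
    rw [h1]
    exact harea _ inter_subset_right (pre_meas hP hE)
  rw [hmap, integral_map hae2 hF.aestronglyMeasurable,
    integral_withDensity_eq_integral_toReal_smul₀ hwm
      (Eventually.of_forall fun y => ENNReal.ofReal_lt_top)]
  refine integral_congr_ae (Eventually.of_forall fun y => ?_)
  simp only [smul_eq_mul]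
  rw [ENNReal.toReal_ofReal (show 0 ≤ aw (D.x ∘ ψ) y from Real.sqrt_nonneg _), mul_comm]

end Pool.Agent.H91.CM
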